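import Mathlib
import Pool.Agent.L5helper22.GZ.Asym

/-!
# The gcd recursion with `n ^ p - 1`: the number of the zeros

A positive answer to the question would imply, by the sieve, that the number of the zeros up to `X` is
`O(X / (log X) ^ 2)`, and this is the bound of the starting result `ZeroGaps`. Here it is proved that
there are at most `X exp (- (log X) ^ (1/5) / (6 p))` zeros up to `X`, in particular fewer than
`X / (log X) ^ A` for every `A`. This follows from a statement on all numbers `n`: for all but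
`X exp (- (log X) ^ (1/5) / (6 p))` of the `n ≤ X`, if the value of the recursion at `n` is `0`, then
the next zero is at a distance of more than `exp ((log X) ^ (1/5) / (6 p))`.

Proof. Let `m = n + 1` and let `s_i` be the sum of the first `i` gcds `g_i` after the time `m`. The gcd
`g_i` divides `y ^ p - 1` and `(y - h) ^ p - (1 + s_i)`, `y = m + h`, `h = i + 1`, and hence the
resultant of `X ^ p - 1` and `(X - h) ^ p - (1 + s_i)`, which is not zero (for `p = 2` because the gcds
are odd). So if `s_i` is known there are few possibilities for `g_i` (for most `m` all the numbers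
`y ^ p - 1` have few prime factors), and each of them is a condition on `m` modulo `g_i`; two gcds have
a small common divisor, again because of a resultant. Consider chains of indices
`i_1 < i_2 < ... < i_r` such that the product of the `g_i`, `i` in the chain, is greater than `E ^ r`
times the product of the sums of the gcds between consecutive indices of the chain. The number of the
`m` with such a chain is at most `X` times the sum, over the indices and over the sums in between, of the
product of the numbers `1 / (E σ)`, which is small. If there is no chain with at most `R` indices, then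
the sums grow slowly: after a term `g_i` which is comparable with the sum before it, the sum of the
following terms has to grow from the beginning before there can be another such term. So the time for
reaching a scale is at least twice the time for reaching a somewhat smaller scale, and the `s_i` with
`i < 2 ^ R` are small.
-/

set_option autoImplicit false

namespace Pool.Agent.Results.MP_e7655a_nt.FewZeros

open Finset Pool.Agent.L5helper22.GZ

/-- For every prime `p` and all large `X`: (1) the sequence `a = a_p` of the problem has at most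
`X exp (-(log X)^(1/5) / (6 p))` zeros `n ≤ X`; (2) for all but at most
`X exp (-(log X)^(1/5) / (6 p))` numbers `n ≤ X`, every sequence which has the value `0` at `n` and
satisfies the recursion of the problem after `n` has no zero `k` with
`n < k ≤ n + exp ((log X)^(1/5) / (6 p))`. -/
theorem result (p : ℕ) (hp : p.Prime) : ∃ X₀ : ℕ, ∀ X : ℕ, X₀ ≤ X →
    (∀ a : ℕ → ℤ, a 1 = 1 →
      (∀ n : ℕ, 2 ≤ n →
        a n = |a (n - 1) - ((Int.gcd (a (n - 1)) ((n : ℤ) ^ p - 1) : ℕ) : ℤ)|) →
      ({n : ℕ | 1 ≤ n ∧ n ≤ X ∧ a n = 0}.ncard : ℝ) ≤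
        X * Real.exp (-((Real.log X) ^ (1 / 5 : ℝ) / (6 * p)))) ∧
    ({n : ℕ | 1 ≤ n ∧ n ≤ X ∧ ∃ a : ℕ → ℤ, a n = 0 ∧
        (∀ k : ℕ, n < k →
          a k = |a (k - 1) - ((Int.gcd (a (k - 1)) ((k : ℤ) ^ p - 1) : ℕ) : ℤ)|) ∧
        ∃ k : ℕ, n < k ∧ (k : ℝ) ≤ n + Real.exp ((Real.log X) ^ (1 / 5 : ℝ) / (6 * p)) ∧
          a k = 0}.ncard : ℝ) ≤
      X * Real.exp (-((Real.log X) ^ (1 / 5 : ℝ) / (6 * p))) := by
  classical
  have hp0 : (0 : ℝ) < p := by exact_mod_cast hp.pos
  have hl0pos : 0 < l0 p := by
    unfold l0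
    positivity
  refine ⟨⌈Real.exp ((6 * p * l0 p) ^ 5)⌉₊, fun X hX => ?_⟩
  have hX1 : Real.exp ((6 * p * l0 p) ^ 5) ≤ X := (Nat.le_ceil _).trans (by exact_mod_cast hX)
  have hXpos : (0 : ℝ) < X := lt_of_lt_of_le (Real.exp_pos _) hX1
  have hlog : (6 * p * l0 p) ^ 5 ≤ Real.log X := by
    rw [← Real.log_exp ((6 * p * l0 p) ^ 5)]
    exact Real.log_le_log (Real.exp_pos _) hX1
  have hlog0 : 0 ≤ Real.log X := le_trans (by positivity) hlog
  set l : ℝ := (Real.log X) ^ (1 / 5 : ℝ) / (6 * p) with hl
  have hroot : ((Real.log X) ^ (1 / 5 : ℝ)) ^ 5 = Real.log X := by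
    rw [← Real.rpow_natCast, ← Real.rpow_mul hlog0]
    norm_num
  have hl5 : (6 * p * l) ^ 5 = Real.log X := by
    have : 6 * p * l = (Real.log X) ^ (1 / 5 : ℝ) := by
      rw [hl]
      field_simp
    rw [this, hroot]
  have hll : l0 p ≤ l := by
    rw [hl, le_div_iff₀ (by positivity)]
    have h1 : (6 * p * l0 p) ^ 5 ≤ ((Real.log X) ^ (1 / 5 : ℝ)) ^ 5 := by rw [hroot]; exact hlog
    have h2 := le_of_pow_le_pow_left₀ (by norm_num) (by positivity) h1
    linarith
  obtain ⟨L, hL1, hL0, hLX, hX1n, hmain⟩ := exists_length hp X l hll hl5.symm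
  have hLr : (0 : ℝ) < L := by exact_mod_cast hL0
  have hXr : (1 : ℝ) ≤ X := by exact_mod_cast hX1n
  have hone : (1 : ℝ) ≤ X / L := by
    rw [le_div_iff₀ hLr, one_mul]
    exact_mod_cast hLX
  have hbound : 10 * ((X : ℝ) / L) ≤ X * Real.exp (-l) := by
    rw [← mul_div_assoc, div_le_iff₀ hLr]
    calc 10 * (X : ℝ) = X * Real.exp (-l) * (10 * Real.exp l) := by
          rw [Real.exp_neg]
          field_simp
      _ ≤ X * Real.exp (-l) * L := by gcongr
  have h3 : 3 * ((X + 1 : ℕ) : ℝ) / L ≤ 6 * (X / L) := by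
    rw [← mul_div_assoc]
    apply div_le_div_of_nonneg_right _ hLr.le
    push_cast
    linarith
  constructor
  · intro a _ ha
    have hrec : IsRec p 1 a := fun k hk => ha k (by omega)
    have hset : {n : ℕ | 1 ≤ n ∧ n ≤ X ∧ a n = 0} =
        (((Icc 1 X).filter fun n => a n = 0 : Finset ℕ) : Set ℕ) := by
      ext n
      simp [and_assoc]
    rw [hset, Set.ncard_coe_finset]
    set Z := (Icc 1 X).filter fun n => a n = 0 with hZ
    have h1 := hmain (Z.filter fun n => Short p L n) (by
      intro n hn
      rw [mem_filter, hZ, mem_filter, mem_Icc] at hn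
      exact ⟨hn.1.1.1, hn.1.1.2, hn.2⟩)
    have h2 := card_long hL0 hrec (X := X) (Z.filter fun n => ¬ Short p L n) (by
      intro n hn
      rw [mem_filter, hZ, mem_filter, mem_Icc] at hn
      exact ⟨hn.1.1.1, hn.1.1.2, hn.1.2, hn.2⟩)
    have h4 : Z.card = (Z.filter fun n => Short p L n).card +
        (Z.filter fun n => ¬ Short p L n).card := (card_filter_add_card_filter_not _).symm
    have h5 : (Z.card : ℝ) = ((Z.filter fun n => Short p L n).card : ℝ) +
        ((Z.filter fun n => ¬ Short p L n).card : ℝ) := by exact_mod_cast h4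
    linarith
  · have hsub : {n : ℕ | 1 ≤ n ∧ n ≤ X ∧ ∃ a : ℕ → ℤ, a n = 0 ∧
        (∀ k : ℕ, n < k →
          a k = |a (k - 1) - ((Int.gcd (a (k - 1)) ((k : ℤ) ^ p - 1) : ℕ) : ℤ)|) ∧
        ∃ k : ℕ, n < k ∧ (k : ℝ) ≤ n + Real.exp l ∧ a k = 0} ⊆
        (((Icc 1 X).filter fun n => Short p L n : Finset ℕ) : Set ℕ) := by
      rintro n ⟨h1, h2, a, h4, h5, k, h6, h7, h8⟩
      rw [coe_filter]
      refine ⟨mem_Icc.mpr ⟨h1, h2⟩, ?_⟩
      have h9 : (k : ℝ) ≤ ((n + L : ℕ) : ℝ) := by
        push_cast
        linarith [Real.exp_pos l]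
      exact short_of_zero (fun j hj => h5 j hj) h1 h4 h6 (by exact_mod_cast h9) h8
    have h1 := Set.ncard_le_ncard hsub (Finset.finite_toSet _)
    rw [Set.ncard_coe_finset] at h1
    have h2 := hmain ((Icc 1 X).filter fun n => Short p L n) (by
      intro n hn
      rw [mem_filter, mem_Icc] at hn
      exact ⟨hn.1.1, hn.1.2, hn.2⟩)
    have h4 : (({n : ℕ | 1 ≤ n ∧ n ≤ X ∧ ∃ a : ℕ → ℤ, a n = 0 ∧
        (∀ k : ℕ, n < k →
          a k = |a (k - 1) - ((Int.gcd (a (k - 1)) ((k : ℤ) ^ p - 1) : ℕ) : ℤ)|) ∧
        ∃ k : ℕ, n < k ∧ (k : ℝ) ≤ n + Real.exp l ∧ a k = 0}.ncard : ℕ) : ℝ) ≤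
        (((Icc 1 X).filter fun n => Short p L n).card : ℝ) := by exact_mod_cast h1
    linarith

end Pool.Agent.Results.MP_e7655a_nt.FewZeros
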