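import Pool.Agent.L5helper32.GP.Final
import Pool.Agent.L5helper32.GP.D.All
import Pool.Agent.L5helper4.GPTrue

/-!
# MP_e7655a_nt: the gcd recursion with random integers

The recursion is `a n = |a (n - 1) - gcd (a (n - 1)) (n ^ p - 1)|`, `a 1 = 1`.  For `x = a (n - 1) > 0`
put `c = x + (n - 1)`; then `n - 1 ≡ c` modulo `x`, so the gcd is `gcd x ((c + 1) ^ p - 1)`, and it
depends only on `c` modulo `x`.  In the model every integer `c` is replaced by a random profinite
integer, given by its residues `U c m` modulo all `m` (`Prof`): each is uniformly distributed, and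
those for different `c` are independent.  The recursion is then
`a n = x - gcd x ((U c x + 1) ^ p - 1)` (`seq`); with `U c m = c % m` it is the recursion of the
problem (`seq_is_recursion`).  A zero `n` is prime in the model if no prime `r` with `r ^ 2 ≤ n` divides the
random integer of `n`, that is `U n r ≠ 0` (`NPrime`), and `q_p(n)` is prime in the model if no prime
`r` with `r ^ 2 ≤ q_p(n)` divides `q_p(U n r)` (`QPrime`).

The answer to the question is in the model almost surely positive for `p = 2, 3` and negative for all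
primes `p ≥ 5`; for `p ≥ 5` the proportion of the zeros `n` for which `n` and `q_p(n)` are prime in the
model tends almost surely to `2 / (p - 1)`.
-/

set_option autoImplicit false

open Finset MeasureTheory ProbabilityTheory Filter Topology

namespace Pool.Agent.Results.MP_e7655a_nt.RandomIntegers

open Pool.Agent.L5helper32.GP

theorem nprime_iff {Ω : Type} [MeasurableSpace Ω] {μ : Measure Ω} [IsProbabilityMeasure μ] {U : ℕ → ℕ → Ω → ℕ}
    (h : Prof μ U) (ω : Ω) (n : ℕ) :
    DNPrime (res (digit U) ω n) n ↔ NPrime (fun m => U n m ω) n := by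
  unfold DNPrime NPrime
  apply forall_congr'; intro r
  apply imp_congr_right; intro hr
  rw [digit_zero h ω n hr]

theorem qprime_iff {Ω : Type} [MeasurableSpace Ω] {μ : Measure Ω} [IsProbabilityMeasure μ] {U : ℕ → ℕ → Ω → ℕ}
    (h : Prof μ U) (p : ℕ) (ω : Ω) (n : ℕ) :
    DQPrime p (res (digit U) ω n) n ↔ QPrime p (fun m => U n m ω) n := by
  unfold DQPrime QPrime
  apply forall_congr'; intro r
  apply imp_congr_right; intro hr
  rw [digit_zero h ω n hr]

/-- For the residues of the true integers, `seq` is the sequence of the problem. -/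
theorem seq_is_recursion (p : ℕ) (a : ℕ → ℕ) (h1 : a 1 = 1)
    (h : ∀ n, 2 ≤ n → (a n : ℤ) = |(a (n - 1) : ℤ) - Nat.gcd (a (n - 1)) (n ^ p - 1)|) :
    ∀ n, 1 ≤ n → a n = seq p (fun c m => c % m) n :=
  seq_true p a h1 h

open Classical in
theorem result :
    (∃ (Ω : Type) (_ : MeasurableSpace Ω) (μ : Measure Ω) (U : ℕ → ℕ → Ω → ℕ),
      IsProbabilityMeasure μ ∧ Prof μ U) ∧
    ∀ (p : ℕ), p.Prime → ∀ (Ω : Type) [MeasurableSpace Ω] (μ : Measure Ω) [IsProbabilityMeasure μ]
      (U : ℕ → ℕ → Ω → ℕ), Prof μ U →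
      (p ≤ 3 → ∀ᵐ ω ∂μ, ∃ N, ∀ n ≥ N, seq p (fun c m => U c m ω) n = 0 →
        NPrime (fun m => U n m ω) n ∧ QPrime p (fun m => U n m ω) n) ∧
      (5 ≤ p → ∀ᵐ ω ∂μ, ∀ N, ∃ n ≥ N, seq p (fun c m => U c m ω) n = 0 ∧
        ¬ QPrime p (fun m => U n m ω) n) ∧
      (5 ≤ p → ∀ᵐ ω ∂μ, Tendsto (fun X : ℕ =>
        (#{n ∈ Icc 1 X | seq p (fun c m => U c m ω) n = 0 ∧
            NPrime (fun m => U n m ω) n ∧ QPrime p (fun m => U n m ω) n} : ℝ)
          / #{n ∈ Icc 1 X | seq p (fun c m => U c m ω) n = 0}) atTop (𝓝 (2 / ((p : ℝ) - 1)))) ∧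
      (∀ᵐ ω ∂μ, ∀ N, ∃ n ≥ N, seq p (fun c m => U c m ω) n = 0 ∧
        NPrime (fun m => U n m ω) n ∧ QPrime p (fun m => U n m ω) n) := by
  refine ⟨exists_prof, ?_⟩
  intro p hp Ω _ μ _ U h
  have hres := digit_res h
  refine ⟨?_, ?_, ?_, ?_⟩
  · intro hp3
    filter_upwards [final_le_three hp hp3 hres] with ω hω
    obtain ⟨N, hN⟩ := hω
    refine ⟨N, fun n hn h0 => ?_⟩
    rw [← dseq_digit h] at h0
    have := hN n hn h0
    rwa [nprime_iff h, qprime_iff h] at this
  · intro h5
    filter_upwards [final_bad hp h5 hres] with ω hω N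
    obtain ⟨n, hn, h0, h1⟩ := hω N
    rw [dseq_digit h] at h0
    rw [qprime_iff h] at h1
    exact ⟨n, hn, h0, h1⟩
  · intro h5
    filter_upwards [proportion hp h5 hres] with ω hω
    simpa only [dseq_digit h, nprime_iff h, qprime_iff h] using hω
  · filter_upwards [final_good hp hres] with ω hω N
    obtain ⟨n, hn, h0, h1⟩ := hω N
    rw [dseq_digit h] at h0
    rw [nprime_iff h, qprime_iff h] at h1
    exact ⟨n, hn, h0, h1⟩

end Pool.Agent.Results.MP_e7655a_nt.RandomIntegers
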