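import Pool.Agent.L5helper2.GR.Final2

/-! MP_e7655a_nt (helper2): the recursion with random roots of `Φ_p` modulo the primes `l ≡ 1 (mod p)`. -/

set_option autoImplicit false

namespace Pool.Agent.Results.MP_e7655a_nt.RandomRoots

open Finset MeasureTheory ProbabilityTheory Filter
open scoped ENNReal

open Classical in
/-- the primes `l ∈ DD` dividing `x` with `n mod l ∈ R l` -/
noncomputable def hits (DD : Set ℕ) (R : ℕ → Finset ℕ) (x n : ℕ) : Finset ℕ :=
  x.primeFactors.filter (fun l => l ∈ DD ∧ n % l ∈ R l)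

/-- the recursion of `a_p` in which, for the primes `l ∈ DD`, the set of the residues `n` modulo `l` for which
`l` divides `(n ^ p - 1) / (n - 1)` is replaced by `R l`; the number `D n x H` contains the prime factors
from the set of hits `H`, to any powers, and those which are given by other rules -/
noncomputable def a (p : ℕ) (D : ℕ → ℕ → Finset ℕ → ℕ) (DD : Set ℕ) (R : ℕ → Finset ℕ) : ℕ → ℕ
  | 0 => 1
  | 1 => 1
  | (n + 2) =>
    if a p D DD R (n + 1) = 0 then (n + 2) ^ p - 1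
    else a p D DD R (n + 1) -
      Nat.gcd (a p D DD R (n + 1)) (D (n + 2) (a p D DD R (n + 1)) (hits DD R (a p D DD R (n + 1)) (n + 2)))

/-- `q_p(n) = ((n + 1) ^ p - 1) / n` is composite in the model: a prime `l ∈ DD` with
`n + 1 < l ≤ √(q_p(n))` divides it -/
def Comp (p : ℕ) (DD : Set ℕ) (R : ℕ → Finset ℕ) (n : ℕ) : Prop :=
  ∃ l ∈ DD, n + 1 < l ∧ l ^ 2 ≤ ((n + 1) ^ p - 1) / n ∧ (n + 1) % l ∈ R l

/-- independent random sets `R l`, where for `l ∈ DD` the set `R l` is uniformly distributed among the sets of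
`p - 1` residues modulo `l` -/
structure Roots {Ω : Type} [MeasurableSpace Ω] (μ : Measure Ω) (p : ℕ) (DD : Set ℕ)
    (R : ℕ → Ω → Finset ℕ) : Prop where
  meas : ∀ l S, MeasurableSet {ω | R l ω = S}
  indep : iIndepFun (m := fun _ => ⊤) R μ
  unif : ∀ l ∈ DD, ∀ S : Finset ℕ, S ⊆ range l → S.card = p - 1 →
    μ {ω | R l ω = S} = ((l.choose (p - 1) : ℕ) : ℝ≥0∞)⁻¹

open Classical in
/-- the sum of the `(p - 1) / l` over the `l ∈ DD` in `(z, z ^ ((p - 1) / 2)]` -/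
noncomputable def win (p : ℕ) (DD : Set ℕ) (z : ℕ) : ℝ :=
  ∑ l ∈ (Ioc z (z ^ ((p - 1) / 2))).filter (fun l => l ∈ DD), ((p : ℝ) - 1) / l

/-- `win p DD z ≥ C / log log z` for large `z`, with some `C > 0` -/
def Spread (p : ℕ) (DD : Set ℕ) : Prop :=
  ∃ C : ℝ, 0 < C ∧ ∀ᶠ z : ℕ in atTop, C / Real.log (Real.log z) ≤ win p DD z

/-- `liminf win p DD z ≥ - log q₀` -/
def Thick (p : ℕ) (DD : Set ℕ) (q₀ : ℝ) : Prop :=
  0 ≤ q₀ ∧ ∀ q : ℝ, q₀ < q → ∀ᶠ z : ℕ in atTop, -Real.log q ≤ win p DD z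

/-- `n` is the zero of `f` of rank `i` after `N` (the first one has rank `0`) -/
def IsZero (f : ℕ → ℕ) (N i n : ℕ) : Prop :=
  N < n ∧ f n = 0 ∧ ((Ioo N n).filter (fun j => f j = 0)).card = i

section aux

open Pool.Agent.L5helper2.GR

variable {p : ℕ} {D : ℕ → ℕ → Finset ℕ → ℕ} {DD : Set ℕ}

lemma a_eq (R : ℕ → Finset ℕ) : a p D DD R = A p D DD R := by
  funext n
  induction n using Nat.strong_induction_on with
  | _ n ih =>
    rcases n with _ | _ | n
    · rw [a, A]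
    · rw [a, A]
    · rw [a, A, ih (n + 1) (by omega)]
      rfl

lemma comp_iff (R : ℕ → Finset ℕ) (n : ℕ) : ¬ Comp p DD R n ↔ good p DD R n := by
  unfold Comp good
  push Not
  constructor
  · intro h l hl
    rw [mem_L] at hl
    have := h l hl.1 hl.2.1 hl.2.2
    rwa [Nat.mod_eq_of_lt hl.2.1] at this
  · intro h l h1 h2 h3
    rw [Nat.mod_eq_of_lt h2]
    exact h l (mem_L.2 ⟨h1, h2, h3⟩)

lemma Thick.hq (hp : 3 ≤ p) (hDD : ∀ l ∈ DD, l.Prime ∧ l % p = 1) {q₀ : ℝ} (h : Thick p DD q₀) {q : ℝ}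
    (hq : q₀ < q) : ∃ N0 : ℕ, ∀ D : ℕ → ℕ → Finset ℕ → ℕ, HQ p D DD N0 (ENNReal.ofReal q) := by
  have h0 := h.1
  have h1 : q₀ < (q₀ + q) / 2 := by linarith
  refine hq_of_prod hp hDD ((p - 1) / 2) (by omega) (q := (q₀ + q) / 2) (by linarith) (by linarith) ?_
  have h2 := prod_of_sum (DD := DD) hp ((p - 1) / 2) (c := -Real.log ((q₀ + q) / 2)) (h.2 _ h1)
  rw [neg_neg, Real.exp_log (by linarith)] at h2
  exact h2

variable {Ω : Type} [MeasurableSpace Ω] {μ : Measure Ω} {R : ℕ → Ω → Finset ℕ}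

lemma Roots.model (h : Roots μ p DD R) (hDD : ∀ l ∈ DD, l.Prime ∧ l % p = 1) : Model μ p DD R where
  prime := hDD
  meas := fun l => measurable_to_countable' fun S => h.meas l S
  indep := h.indep
  unif := h.unif

end aux

open Pool.Agent.L5helper2.GR in
/-- the bound for finitely many ranks -/
theorem ranks (p : ℕ) (hp : 3 ≤ p) (DD : Set ℕ) (hDD : ∀ l ∈ DD, l.Prime ∧ l % p = 1) (q₀ : ℝ)
    (hT : Thick p DD q₀) (q : ℝ) (hq : q₀ < q) :
    ∃ N₀ : ℕ, ∀ (D : ℕ → ℕ → Finset ℕ → ℕ) (Ω : Type) (_ : MeasurableSpace Ω) (μ : Measure Ω) (_ : IsProbabilityMeasure μ)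
      (R : ℕ → Ω → Finset ℕ), Roots μ p DD R → ∀ N : ℕ, N₀ ≤ N → ∀ S : Finset ℕ,
        μ {ω | ∀ i ∈ S, ∀ n, IsZero (a p D DD fun l => R l ω) N i n → ¬ Comp p DD (fun l => R l ω) n} ≤
          ENNReal.ofReal q ^ S.card := by
  obtain ⟨N0, hN0⟩ := hT.hq hp hDD hq
  refine ⟨N0, fun D Ω _ μ _ R hR N hN S => ?_⟩
  refine (measure_mono ?_).trans (gk_bound (hR.model hDD) N0 _ (hN0 D) N hN S)
  intro ω hω i hi n hn h0 hc
  rw [← comp_iff]
  apply hω i hi n
  refine ⟨hn, ?_, ?_⟩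
  · rw [a_eq]
    exact h0
  · rw [a_eq]
    exact hc

open Classical in
open Pool.Agent.L5helper2.GR in
/-- the almost sure bound -/
theorem almost_sure (p : ℕ) (hp : 3 ≤ p) (DD : Set ℕ) (hDD : ∀ l ∈ DD, l.Prime ∧ l % p = 1) (q₀ : ℝ)
    (hT : Thick p DD q₀) (D : ℕ → ℕ → Finset ℕ → ℕ) {Ω : Type} [MeasurableSpace Ω] (μ : Measure Ω) [IsProbabilityMeasure μ]
    (R : ℕ → Ω → Finset ℕ) (hR : Roots μ p DD R) :
    ∀ᵐ ω ∂μ, ∀ q : ℝ, q₀ < q → ∀ᶠ M : ℕ in atTop,
      (((Icc 1 M).filter (fun n => a p D DD (fun l => R l ω) n = 0 ∧ ¬ Comp p DD (fun l => R l ω) n)).card : ℝ) ≤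
        q * ((Icc 1 M).filter (fun n => a p D DD (fun l => R l ω) n = 0)).card := by
  rcases lt_or_ge q₀ 1 with h1 | h1
  · have hj : ∀ j : ℕ, ∀ᵐ ω ∂μ, ∀ᶠ M : ℕ in atTop,
        (((Icc 1 M).filter (fun n => a p D DD (fun l => R l ω) n = 0 ∧ ¬ Comp p DD (fun l => R l ω) n)).card : ℝ) ≤
        (q₀ + (1 - q₀) / ((j : ℝ) + 1)) * ((Icc 1 M).filter (fun n => a p D DD (fun l => R l ω) n = 0)).card := by
      intro j
      have hj0 : (0 : ℝ) < (j : ℝ) + 1 := by positivity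
      have h2 : 0 < (1 - q₀) / ((j : ℝ) + 1) := div_pos (by linarith) hj0
      have h3 : (1 - q₀) / ((j : ℝ) + 1) ≤ 1 - q₀ := by
        rw [div_le_iff₀ hj0]
        have : (0 : ℝ) ≤ j := Nat.cast_nonneg j
        nlinarith
      obtain ⟨N0, hN0⟩ := hT.hq hp hDD (q := q₀ + (1 - q₀) / ((j : ℝ) + 1) / 2) (by linarith)
      have h4 := ae_bound (hR.model hDD) N0 (D := D) (q := q₀ + (1 - q₀) / ((j : ℝ) + 1) / 2)
        (α := q₀ + (1 - q₀) / ((j : ℝ) + 1)) (by linarith [hT.1]) (by linarith) (hN0 D) (by linarith)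
      filter_upwards [h4] with ω hω
      filter_upwards [hω] with M hM
      simp only [a_eq, comp_iff]
      exact hM
    filter_upwards [ae_all_iff.2 hj] with ω hω
    intro q hq
    obtain ⟨j, hj⟩ := exists_nat_gt ((1 - q₀) / (q - q₀))
    have hj0 : (0 : ℝ) < (j : ℝ) + 1 := by positivity
    have h2 : (1 - q₀) / ((j : ℝ) + 1) ≤ q - q₀ := by
      rw [div_lt_iff₀ (by linarith)] at hj
      rw [div_le_iff₀ hj0]
      nlinarith
    filter_upwards [hω j] with M hM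
    refine hM.trans ?_
    apply mul_le_mul_of_nonneg_right _ (Nat.cast_nonneg _)
    linarith
  · apply Filter.Eventually.of_forall
    intro ω q hq
    apply Filter.Eventually.of_forall
    intro M
    have h2 : (((Icc 1 M).filter (fun n => a p D DD (fun l => R l ω) n = 0 ∧ ¬ Comp p DD (fun l => R l ω) n)).card : ℝ) ≤
        ((Icc 1 M).filter (fun n => a p D DD (fun l => R l ω) n = 0)).card := by
      exact_mod_cast Finset.card_le_card (fun n hn => by
        simp only [Finset.mem_filter] at hn ⊢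
        exact ⟨hn.1, hn.2.1⟩)
    have h3 : (0 : ℝ) ≤ ((Icc 1 M).filter (fun n => a p D DD (fun l => R l ω) n = 0)).card := Nat.cast_nonneg _
    nlinarith

open Pool.Agent.L5helper2.GR in
/-- infinitely many zeros with a composite `q_p(n)` -/
theorem infinite (p : ℕ) (hp : 3 ≤ p) (DD : Set ℕ) (hDD : ∀ l ∈ DD, l.Prime ∧ l % p = 1) (hS : Spread p DD)
    (D : ℕ → ℕ → Finset ℕ → ℕ) {Ω : Type} [MeasurableSpace Ω] (μ : Measure Ω) [IsProbabilityMeasure μ]
    (R : ℕ → Ω → Finset ℕ) (hR : Roots μ p DD R) :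
    ∀ᵐ ω ∂μ, {n | a p D DD (fun l => R l ω) n = 0 ∧ Comp p DD (fun l => R l ω) n}.Infinite := by
  obtain ⟨C, hC, hs⟩ := hS
  have h1 := ae_infinite (hR.model hDD) (D := D) hp ((p - 1) / 2) (by omega) hC hs
  filter_upwards [h1] with ω hω
  refine hω.mono ?_
  rintro n ⟨h2, h3⟩
  refine ⟨?_, ?_⟩
  · rw [a_eq]
    exact h2
  · by_contra h4
    exact h3 ((comp_iff _ n).1 h4)

open Pool.Agent.L5helper2.GR in
/-- the set of all primes `1` modulo `p` -/
theorem thick_all (p : ℕ) (hp : p.Prime) (hp5 : 5 ≤ p) :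
    Thick p {l | l.Prime ∧ l % p = 1} (2 / ((p : ℝ) - 1)) := by
  classical
  have hp1 : (5 : ℝ) ≤ p := by exact_mod_cast hp5
  refine ⟨div_nonneg (by norm_num) (by linarith), fun q hq => ?_⟩
  have hq0 : 0 < q := lt_of_le_of_lt (div_nonneg (by norm_num) (by linarith)) hq
  have hodd : p % 2 = 1 := by
    rcases hp.eq_two_or_odd with h | h
    · omega
    · exact h
  obtain ⟨k, hk⟩ : ∃ k, p = 2 * k + 1 := ⟨p / 2, by omega⟩
  have hk1 : (p - 1) / 2 = k := by omega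
  have hkp : (0 : ℝ) < k := by exact_mod_cast (by omega : 0 < k)
  have hpk : (p : ℝ) - 1 = 2 * k := by rw [hk]; push_cast; ring
  have hq2 : 1 / (k : ℝ) < q := by
    rw [hpk] at hq
    have : (2 : ℝ) / (2 * k) = 1 / k := by field_simp
    rwa [this] at hq
  have hε : 0 < Real.log (q * k) := by
    apply Real.log_pos
    rw [div_lt_iff₀ hkp] at hq2
    exact hq2
  filter_upwards [sum_lower p hp k (by omega) hε] with z hz
  rw [Real.log_mul hq0.ne' hkp.ne'] at hz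
  unfold win
  rw [hk1]
  have h2 : -Real.log q ≤
      ∑ l ∈ (Ioc z (z ^ k)).filter (fun l => l.Prime ∧ l % p = 1), ((p : ℝ) - 1) / l := by linarith
  refine h2.trans (le_of_eq ?_)
  apply Finset.sum_congr
  · ext l
    simp only [Finset.mem_filter, Set.mem_ofPred_eq]
  · intro l _
    rfl

/-- the first condition is weaker -/
theorem Thick.spread {p : ℕ} {DD : Set ℕ} {q₀ : ℝ} (h : Thick p DD q₀) (h1 : q₀ < 1) : Spread p DD := by
  have h0 := h.1
  have hq0 : 0 < (q₀ + 1) / 2 := by linarith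
  have hq1 : (q₀ + 1) / 2 < 1 := by linarith
  have hl := Real.log_neg hq0 hq1
  refine ⟨1, one_pos, ?_⟩
  have hlog : Tendsto (fun z : ℕ => Real.log (Real.log (z : ℝ))) atTop atTop :=
    Real.tendsto_log_atTop.comp (Real.tendsto_log_atTop.comp tendsto_natCast_atTop_atTop)
  have h2 : Tendsto (fun z : ℕ => 1 / Real.log (Real.log (z : ℝ))) atTop (nhds 0) := hlog.const_div_atTop 1
  filter_upwards [h.2 ((q₀ + 1) / 2) (by linarith), h2.eventually_lt_const (show (0 : ℝ) < -Real.log ((q₀ + 1) / 2) by linarith)] with z h3 h4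
  linarith

open Pool.Agent.L5helper2.GR in
/-- such random sets exist -/
theorem exists_roots (p : ℕ) (DD : Set ℕ) (hDD : ∀ l ∈ DD, l.Prime ∧ l % p = 1) :
    ∃ (Ω : Type) (_ : MeasurableSpace Ω) (μ : Measure Ω) (_ : IsProbabilityMeasure μ) (R : ℕ → Ω → Finset ℕ),
      Roots μ p DD R := by
  classical
  have hle : ∀ l ∈ DD, p - 1 ≤ l := by
    intro l hl
    obtain ⟨h1, h2⟩ := hDD l hl
    by_contra hcon
    rw [Nat.mod_eq_of_lt (by omega : l < p)] at h2
    rw [h2] at h1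
    exact Nat.not_prime_one h1
  have hne : ∀ l : ℕ, (if l ∈ DD then powersetCard (p - 1) (range l) else {∅}).Nonempty := by
    intro l
    split_ifs with hl
    · apply Finset.powersetCard_nonempty.2
      rw [card_range]
      exact hle l hl
    · exact Finset.singleton_nonempty _
  obtain ⟨Ω, mΩ, μ, R, h1, h2, h3, h4⟩ := exists_hasLaw_indepFun (fun _ : ℕ => Finset ℕ)
    (fun l => (PMF.uniformOfFinset _ (hne l)).toMeasure)
  refine ⟨Ω, mΩ, μ, h4, R, fun l S => h1 l (t := {S}) trivial, h3, ?_⟩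
  intro l hl S hS hc
  have h5 : μ {ω | R l ω = S} = μ.map (R l) {S} := by
    rw [Measure.map_apply (h1 l) trivial]
    rfl
  rw [h5, (h2 l).map_eq, PMF.toMeasure_uniformOfFinset_apply (hne l) {S} trivial]
  have h6 : (if l ∈ DD then powersetCard (p - 1) (range l) else {∅}) = powersetCard (p - 1) (range l) := if_pos hl
  rw [h6, card_powersetCard, card_range]
  rw [div_eq_mul_inv]
  convert one_mul _
  rw [Nat.cast_eq_one, Finset.card_eq_one]
  refine ⟨S, ?_⟩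
  ext x
  simp only [Finset.mem_filter, mem_powersetCard, Set.mem_singleton_iff, Finset.mem_singleton]
  constructor
  · exact fun h => h.2
  · rintro rfl
    exact ⟨⟨hS, hc⟩, rfl⟩

open Classical in
/-- Q1 of MP_e7655a_nt in the random model -/
theorem result :
    (∀ (p : ℕ), 3 ≤ p → ∀ (DD : Set ℕ), (∀ l ∈ DD, l.Prime ∧ l % p = 1) →
      (∃ (Ω : Type) (_ : MeasurableSpace Ω) (μ : Measure Ω) (_ : IsProbabilityMeasure μ)
        (R : ℕ → Ω → Finset ℕ), Roots μ p DD R) ∧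
      (Spread p DD → ∀ (D : ℕ → ℕ → Finset ℕ → ℕ) (Ω : Type) (_ : MeasurableSpace Ω) (μ : Measure Ω)
        (_ : IsProbabilityMeasure μ) (R : ℕ → Ω → Finset ℕ), Roots μ p DD R →
        ∀ᵐ ω ∂μ, {n | a p D DD (fun l => R l ω) n = 0 ∧ Comp p DD (fun l => R l ω) n}.Infinite) ∧
      ∀ q₀ : ℝ, Thick p DD q₀ →
        (∀ (D : ℕ → ℕ → Finset ℕ → ℕ) (Ω : Type) (_ : MeasurableSpace Ω) (μ : Measure Ω)
          (_ : IsProbabilityMeasure μ) (R : ℕ → Ω → Finset ℕ), Roots μ p DD R →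
          ∀ᵐ ω ∂μ, ∀ q : ℝ, q₀ < q → ∀ᶠ M : ℕ in atTop,
            (((Icc 1 M).filter (fun n =>
              a p D DD (fun l => R l ω) n = 0 ∧ ¬ Comp p DD (fun l => R l ω) n)).card : ℝ) ≤
              q * ((Icc 1 M).filter (fun n => a p D DD (fun l => R l ω) n = 0)).card) ∧
        (∀ q : ℝ, q₀ < q → ∃ N₀ : ℕ, ∀ (D : ℕ → ℕ → Finset ℕ → ℕ) (Ω : Type) (_ : MeasurableSpace Ω)
          (μ : Measure Ω) (_ : IsProbabilityMeasure μ) (R : ℕ → Ω → Finset ℕ), Roots μ p DD R →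
            ∀ N : ℕ, N₀ ≤ N → ∀ S : Finset ℕ,
            μ {ω | ∀ i ∈ S, ∀ n, IsZero (a p D DD fun l => R l ω) N i n → ¬ Comp p DD (fun l => R l ω) n} ≤
              ENNReal.ofReal q ^ S.card)) ∧
    (∀ p : ℕ, p.Prime → 5 ≤ p → Spread p {l | l.Prime ∧ l % p = 1} ∧
      Thick p {l | l.Prime ∧ l % p = 1} (2 / ((p : ℝ) - 1))) := by
  refine ⟨fun p hp DD hDD => ⟨exists_roots p DD hDD, ?_, fun q₀ hT => ⟨?_, fun q hq => ranks p hp DD hDD q₀ hT q hq⟩⟩,
    fun p hp hp5 => ⟨(thick_all p hp hp5).spread ?_, thick_all p hp hp5⟩⟩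
  · intro hS D Ω _ μ _ R hR
    exact infinite p hp DD hDD hS D μ R hR
  · intro D Ω _ μ _ R hR
    exact almost_sure p hp DD hDD q₀ hT D μ R hR
  · have hp1 : (5 : ℝ) ≤ p := by exact_mod_cast hp5
    rw [div_lt_one (by linarith)]
    linarith

end Pool.Agent.Results.MP_e7655a_nt.RandomRoots
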